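import Pool.Agent.P.MP_d1c5d3_co.CM.Main

/-! The largest number of compositions of two polyominoes. -/

set_option autoImplicit false

namespace Pool.Agent.Results.MP_d1c5d3_co.Compositions

/-- Polyominoes: finite nonempty sets of cells connected under edge adjacency. -/
def IsPolyomino (A : Finset (ℤ × ℤ)) : Prop :=
  ((SimpleGraph.fromRel (fun p q : ℤ × ℤ => |p.1 - q.1| + |p.2 - q.2| = 1)).induce
    (↑A : Set (ℤ × ℤ))).Connected

/-- The compositions of `P` and `Q`: the translations `v` such that `P` and `Q + v` have no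
common cell and some cell of `P` is adjacent to some cell of `Q + v`. -/
def compositions (P Q : Finset (ℤ × ℤ)) : Set (ℤ × ℤ) :=
  {v | (∀ p ∈ P, ∀ q ∈ Q, p ≠ q + v) ∧
    ∃ p ∈ P, ∃ q ∈ Q, |p.1 - (q + v).1| + |p.2 - (q + v).2| = 1}

theorem result : ∃ c C : ℝ, 0 < c ∧ 0 < C ∧ ∀ n : ℕ, 1 ≤ n →
    (∀ P Q : Finset (ℤ × ℤ), IsPolyomino P → IsPolyomino Q → P.card ≤ n → Q.card ≤ n →
      (compositions P Q).Finite ∧
      ((compositions P Q).ncard : ℝ) ≤ C * (n : ℝ) ^ 2 * Real.exp (-c * √(Real.log n))) ∧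
    ∃ P Q : Finset (ℤ × ℤ), IsPolyomino P ∧ IsPolyomino Q ∧ P.card ≤ n ∧ Q.card ≤ n ∧
      c * (n : ℝ) ^ 2 * Real.exp (-C * √(Real.log n)) ≤ ((compositions P Q).ncard : ℝ) :=
  P.MP_d1c5d3_co.CM.main

end Pool.Agent.Results.MP_d1c5d3_co.Compositions
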