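import Pool.Agent.P.MP_d1c5d3_co.Main

/-! An upper bound for the number of fixed polyominoes and for Klarner's constant. -/

set_option autoImplicit false

open Filter Topology

namespace Pool.Agent.Results.MP_d1c5d3_co.Klarner

/-- The fixed `n`-ominoes: connected sets of `n` cells whose lowest leftmost cell is the origin. -/
def ominoes (n : ℕ) : Set (Finset (ℤ × ℤ)) :=
  {S | S.card = n ∧ ((0 : ℤ), (0 : ℤ)) ∈ S ∧ (∀ p ∈ S, 0 < p.2 ∨ (p.2 = 0 ∧ 0 ≤ p.1)) ∧
    ((SimpleGraph.fromRel (fun p q : ℤ × ℤ => |p.1 - q.1| + |p.2 - q.2| = 1)).induce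
      (↑S : Set (ℤ × ℤ))).Connected}

theorem result :
    (∀ n : ℕ, (ominoes n).Finite ∧ ((ominoes n).ncard : ℝ) ≤ (429 / 100) ^ n) ∧
    ∀ l : ℝ, Tendsto (fun n : ℕ => ((ominoes n).ncard : ℝ) ^ ((1 : ℝ) / (n : ℝ))) atTop (𝓝 l) →
      l ≤ 429 / 100 := by
  have key : ∀ n : ℕ, (ominoes n).Finite ∧ ((ominoes n).ncard : ℝ) ≤ (429 / 100) ^ n := by
    intro n
    have hf : (ominoes n).Finite := by
      by_contra h
      obtain ⟨k, hk⟩ := exists_nat_gt (((429 : ℝ) / 100) ^ n)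
      obtain ⟨A, h1, h2⟩ := Set.Infinite.exists_subset_card_eq h k
      have := P.MP_d1c5d3_co.card_le n A fun S hS => h1 hS
      rw [h2] at this
      linarith
    refine ⟨hf, ?_⟩
    rw [Set.ncard_eq_toFinset_card _ hf]
    exact P.MP_d1c5d3_co.card_le n _ fun S hS => hf.mem_toFinset.1 hS
  refine ⟨key, fun l hl => le_of_tendsto hl ?_⟩
  filter_upwards [eventually_ne_atTop 0] with n hn
  refine (Real.rpow_le_rpow (Nat.cast_nonneg _) (key n).2 (by positivity)).trans_eq ?_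
  rw [one_div, Real.pow_rpow_inv_natCast (by norm_num) hn]

end Pool.Agent.Results.MP_d1c5d3_co.Klarner
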