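import Pool.Agent.P.MP_d1c5d3_co.TL.Main

/-! The growth constant of tree polycubes in high dimension. -/

set_option autoImplicit false

open Filter Topology

namespace Pool.Agent.Results.MP_d1c5d3_co.TreePolycubes

/-- The fixed tree polycubes with `n` cells in dimension `d`: sets of `n` cells whose adjacency
graph is a tree and whose lexicographically least cell is the origin. -/
def trees (d n : ℕ) : Set (Finset (Fin d → ℤ)) :=
  {S | S.card = n ∧ (0 : Fin d → ℤ) ∈ S ∧ (∀ p ∈ S, toLex (0 : Fin d → ℤ) ≤ toLex p) ∧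
    ((SimpleGraph.fromRel (fun p q : Fin d → ℤ => ∑ i, |p i - q i| = 1)).induce
      (↑S : Set (Fin d → ℤ))).IsTree}

theorem result : ∃ C : ℝ, ∀ d : ℕ, 1 ≤ d → (∀ n, (trees d n).Finite) ∧ ∃ l : ℝ,
    Tendsto (fun n : ℕ => ((trees d n).ncard : ℝ) ^ ((1 : ℝ) / (n : ℝ))) atTop (𝓝 l) ∧
    |l - (2 * d - 7 / 2) * Real.exp 1| ≤ C / d :=
  P.MP_d1c5d3_co.TL.main

end Pool.Agent.Results.MP_d1c5d3_co.TreePolycubes
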